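import Pool.Agent.Helper76.PC.Stmts

namespace Pool.Agent.Helper77.PCC

open Pool.Agent.Helper76.PC

theorem st_ONE : ST_ONE := by
  intro G x d hx hd
  refine ⟨fun _ => x, xor (side x) true, ?_, ?_, ?_, ?_, ?_, ?_, ?_, ?_⟩
  · intro r _; exact hx
  · intro r hr
    rw [List.mem_singleton] at hr
    subst hr
    simp
  · intro r hr
    rw [List.mem_singleton] at hr
    subst hr
    exact hd.ge
  · intro r hr
    rw [List.mem_singleton] at hr
    subst hr
    exact hd.le
  · intro r hr
    rw [List.mem_singleton] at hr
    subst hr
    exact List.nodup_nil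
  · intro r hr y hy
    rw [List.mem_singleton] at hr
    subst hr
    exact absurd hy (List.not_mem_nil)
  · intro r hr y hy
    rw [List.mem_singleton] at hr
    subst hr
    exact absurd hy (List.not_mem_nil)
  · intro r hr q hq _
    rw [List.mem_singleton] at hr hq
    subst hr
    subst hq
    rfl

end Pool.Agent.Helper77.PCC
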